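import Pool.Agent.Helper72.HA.Names
import Pool.Agent.Helper69.HA.CerFacts

/-!
# Project HA, module HA-2: facts on certificates
-/

set_option autoImplicit false
set_option linter.unusedSectionVars false

namespace Pool.Agent.Helper69.HA

open Set Pool.Agent.Helper33.HM

universe u

section Forcing

variable {I : Type u} [LinearOrder I] [WellFoundedLT I] {Ω : Type} [LinearOrder Ω]
  {e : Ω → ℕ → Ω → Prop} {code : I → Ω → Set (Cond I Ω)}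

theorem CE_data {p q : PC e code} {j : I} (h : q.res j ≤ p.res j)
    (hc : ∀ δ m x, (p.f j).c δ m = some x → (q.f j).c δ m = some x) {δ : Ω} {o : Ω ⊕ ℕ} {b : Bool}
    (h' : CE p j δ o b) : CE q j δ o b := by
  refine Cer.mono_on {k | k ≤ j} ?_ ?_ ?_ (show j ≤ j from le_rfl) h'
  · intro k hk δ k' v hD
    exact (mem_Dv.1 hD).1.trans hk
  · intro k hk δ k' v hD
    have hS : (Dv k δ k' v : RO (PC e code)) ∈ S j := S_mono hk (Dv_mem k δ k' v)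
    have h1 : p.res j ∈ (Dv k δ k' v : RO (PC e code)) := (mem_res_iff hS).2 hD
    exact (mem_res_iff hS).1 (RO.mem_lower h h1)
  · intro k hk δ m x hC
    rcases (show k ≤ j from hk).lt_or_eq with hlt | rfl
    · have h1 := (PC.le_iff.1 h k).1
      rw [PC.res_f_lt _ hlt, PC.res_f_lt _ hlt] at h1
      exact h1.1 _ _ _ hC
    · exact hc _ _ _ hC

theorem CE_mono {p q : PC e code} (h : q ≤ p) {j : I} {δ : Ω} {o : Ω ⊕ ℕ} {b : Bool}
    (h' : CE p j δ o b) : CE q j δ o b :=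
  CE_data (PC.res_mono h j) (fun _ _ _ hx => (PC.le_iff.1 h j).1.1 _ _ _ hx) h'

theorem Nod_data {p q : PC e code} {j : I} (h : q.res j ≤ p.res j)
    (hc : ∀ δ m x, (p.f j).c δ m = some x → (q.f j).c δ m = some x) {δ : Ω} {o : Ω ⊕ ℕ} {a : Bool}
    (h' : Nod p j δ o a) : Nod q j δ o a := by
  cases o with
  | inl ξ =>
    obtain ⟨h1, m, γ, x, h2, h3, h4, h5, h6⟩ := h'
    exact ⟨h1, m, γ, x, fun m' hm' γ' hγ' => CE_data h hc (h2 m' hm' γ' hγ'), h3,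
      CE_data h hc h4, hc _ _ _ h5, h6⟩
  | inr l =>
    rcases h' with ⟨m, γ, x, h1, h2, h3, h4, h5, h6, h7⟩ | ⟨m, γ, x, y, h1, h2, h3, h4, h5, h6, h7, h8⟩ |
      ⟨y, h1, h2, h3⟩
    · exact .inl ⟨m, γ, x, h1, fun m' hm' γ' hγ' => CE_data h hc (h2 m' hm' γ' hγ'), h3,
        CE_data h hc h4, hc _ _ _ h5, h6, h7⟩
    · exact .inr (.inl ⟨m, γ, x, y, h1, fun m' hm' γ' hγ' => CE_data h hc (h2 m' hm' γ' hγ'), h3,
        CE_data h hc h4, hc _ _ _ h5, h6, hc _ _ _ h7, h8⟩)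
    · exact .inr (.inr ⟨y, fun m' hm' γ' hγ' => CE_data h hc (h1 m' hm' γ' hγ'), hc _ _ _ h2, h3⟩)

theorem Nod_mono {p q : PC e code} (h : q ≤ p) {j : I} {δ : Ω} {o : Ω ⊕ ℕ} {a : Bool}
    (h' : Nod p j δ o a) : Nod q j δ o a :=
  Nod_data (PC.res_mono h j) (fun _ _ _ hx => (PC.le_iff.1 h j).1.1 _ _ _ hx) h'

theorem CE_unique {p : PC e code} {j : I} {δ : Ω} {o : Ω ⊕ ℕ} {b b' : Bool}
    (h : CE p j δ o b) (h' : CE p j δ o b') : b = b' :=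
  Cer.unique (lt := fun x y : Ω => x < y) (e := e) (D := DP p) (C := CP p)
    (fun x => lt_irrefl x) (fun _ _ h => lt_asymm h) (fun _ _ _ _ _ _ h1 h2 => Dv_fun h1 h2)
    (fun _ _ _ _ _ h1 h2 => Option.some_injective _ (Eq.trans (Eq.symm h1) h2)) h h'

theorem CE_coh {p : PC e code} {i j : I} {γ δ : Ω} {v : Bool} (h : p ∈ Dv i δ j v) (hγ : γ < δ)
    {o : Ω ⊕ ℕ} {b : Bool} : CE p i γ o b ↔ CE p j γ o b :=
  ⟨fun h' => Cer.change (fun _ _ hk => (Dv_coh h hγ).1 hk) h',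
    fun h' => Cer.change (fun _ _ hk => (Dv_coh h hγ).2 hk) h'⟩

theorem CE_iff {p : PC e code} {j : I} {δ : Ω} {o : Ω ⊕ ℕ} {b : Bool} :
    CE p j δ o b ↔ (o = .inl δ ∧ b = true) ∨ (∃ ξ, o = .inl ξ ∧ δ < ξ ∧ b = false) ∨
      ∃ k v a, p ∈ Dv j δ k v ∧ Nod p k δ o a ∧ b = (a != v) := by
  constructor
  · intro h
    cases h with
    | self => exact .inl ⟨rfl, rfl⟩
    | above _ _ ξ h => exact .inr (.inl ⟨ξ, rfl, h, rfl⟩)
    | step _ _ ξ k v m γ x h1 h2 h3 h4 h5 h6 =>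
      exact .inr (.inr ⟨k, v, bE x, h2, ⟨h1, m, γ, x, h3, h4, h5, h6, rfl⟩, rfl⟩)
    | hit _ _ l k v m γ x h1 h2 h3 h4 h5 h6 h7 =>
      exact .inr (.inr ⟨k, v, bE x, h1, .inl ⟨m, γ, x, h2, h3, h4, h5, h6, h7, rfl⟩, rfl⟩)
    | low _ _ l k v m γ x y h1 h2 h3 h4 h5 h6 h7 h8 =>
      exact .inr (.inr ⟨k, v, bH y, h1, .inr (.inl ⟨m, γ, x, y, h2, h3, h4, h5, h6, h7, h8, rfl⟩),
        rfl⟩)
    | none _ _ l k v y h1 h2 h3 =>
      exact .inr (.inr ⟨k, v, bH y, h1, .inr (.inr ⟨y, h2, h3, rfl⟩), rfl⟩)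
  · rintro (⟨rfl, rfl⟩ | ⟨ξ, rfl, h, rfl⟩ | ⟨k, v, a, hD, hN, rfl⟩)
    · exact .self _ _
    · exact .above _ _ _ h
    · cases o with
      | inl ξ =>
        obtain ⟨h1, m, γ, x, h2, h3, h4, h5, rfl⟩ := hN
        exact .step _ _ ξ k v m γ x h1 hD h2 h3 h4 h5
      | inr l =>
        rcases hN with ⟨m, γ, x, h1, h2, h3, h4, h5, h6, rfl⟩ |
          ⟨m, γ, x, y, h1, h2, h3, h4, h5, h6, h7, rfl⟩ | ⟨y, h1, h2, rfl⟩
        · exact .hit _ _ l k v m γ x hD h1 h2 h3 h4 h5 h6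
        · exact .low _ _ l k v m γ x y hD h1 h2 h3 h4 h5 h6 h7
        · exact .none _ _ l k v y hD h1 h2

end Forcing

end Pool.Agent.Helper69.HA
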